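import Pool.Agent.Q280.LF.Four
import Pool.Agent.H297R2.InBakerThm

/-!
# The field of all failures of the algebraic independence of logarithms

Let `𝓛` be the space of all linear combinations of `1` and of logarithms of algebraic numbers, with algebraic coefficients.
A subfield `F` of `ℂ`, algebraically closed in `ℂ`, is called *free* if any elements of `𝓛` which are linearly independent
over the algebraic numbers modulo `F` are algebraically independent over `F`.  By Baker's theorem the conjecture on the
algebraic independence of logarithms says that the field of algebraic numbers is free.  We prove, unconditionally: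

1. There is a smallest free field `F₀`.  The conjecture holds if and only if `F₀` is the field of algebraic numbers.
2. `F₀` is also the smallest algebraically closed field `F` such that the locus over `F` of every point `x` of `𝓛 ^ n` is a
   translate `b + H` of a linear space `H` which is defined over the algebraic numbers, `b ∈ (F ∩ 𝓛) ^ n`.
3. `F₀` is the algebraic closure of the field generated by `F₀ ∩ 𝓛`, and it is stable under complex conjugation.
4. An element `x` of `𝓛` belongs to `F₀` if and only if it is algebraic over the field generated by each complementary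
   hyperplane of `𝓛`.
5. All counterexamples to the strong four exponentials conjecture lie in `F₀`: if `x_1, x_2` and also `y_1, y_2` are linearly
   independent over the algebraic numbers and all `x_i y_j` are in `𝓛`, then all `x_i y_j` are in `F₀`.
6. The conjecture holds with a bounded error (there is `C` such that `n` linearly independent logarithms always generate a
   field of transcendence degree at least `n - C`) if and only if `F₀ ∩ 𝓛` is finite dimensional over the algebraic
   numbers.

Proof: the defect `dim V - trdeg V` of the finite dimensional subspaces of `𝓛` is monotone and supermodular.  The spaces all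
of whose proper subspaces have smaller defect form a directed family, and `F₀` is the algebraic closure of the field
generated by their union.
-/

set_option autoImplicit false

open Matroid Set Module Pool.Agent.Q280.LF

namespace Pool.Agent.Results.MP_60829e_nt.SmallestFreeField

/-- The space of all linear combinations, with algebraic coefficients, of `1` and of logarithms of
algebraic numbers. -/
noncomputable def LinForms : Submodule (algebraicClosure ℚ ℂ) ℂ :=
  Submodule.span (algebraicClosure ℚ ℂ) ({1} ∪ {z : ℂ | IsAlgebraic ℚ (Complex.exp z)})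

/-- `F` is algebraically closed in the field of complex numbers. -/
def Closed (F : IntermediateField ℚ ℂ) : Prop := ∀ z : ℂ, IsAlgebraic F z → z ∈ F

/-- Elements of `LinForms` which are linearly independent over the algebraic numbers modulo `F` are algebraically
independent over `F`. -/
def FreeOver (F : IntermediateField ℚ ℂ) : Prop :=
  ∀ (n : ℕ) (x : Fin n → ℂ), (∀ i, x i ∈ LinForms) →
    (∀ c : Fin n → algebraicClosure ℚ ℂ, ∑ i, (c i : ℂ) * x i ∈ F → c = 0) → AlgebraicIndependent F x

/-- The locus over `F` of every point with coordinates in `LinForms` is a translate `b + H`, with `b` in `F` and in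
`LinForms`, of a linear space `H` with algebraic coefficients (spanned by the vectors `a j`). -/
def LinearLoci (F : IntermediateField ℚ ℂ) : Prop :=
  ∀ (n : ℕ) (x : Fin n → ℂ), (∀ i, x i ∈ LinForms) →
    ∃ (k : ℕ) (b : Fin n → F) (a : Fin k → Fin n → algebraicClosure ℚ ℂ) (y : Fin k → ℂ),
      (∀ i, (b i : ℂ) ∈ LinForms) ∧ (∀ j, y j ∈ LinForms) ∧ (∀ i, x i = b i + ∑ j, (a j i : ℂ) * y j) ∧
      ∀ p : MvPolynomial (Fin n) F, MvPolynomial.aeval x p = 0 →
        ∀ t : Fin k → ℂ, MvPolynomial.aeval (fun i => (b i : ℂ) + ∑ j, (a j i : ℂ) * t j) p = 0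

/-- The conjecture (in the form of the frozen statement). -/
def LogConjecture : Prop :=
  ∀ (n : ℕ) (l : Fin n → ℂ), (∀ i, IsAlgebraic ℚ (Complex.exp (l i))) → LinearIndependent ℚ l →
    AlgebraicIndependent (integralClosure ℚ ℂ) l

/-- The conjecture with a bounded error. -/
def LogConjectureBounded : Prop :=
  ∃ C : ℕ, ∀ (n : ℕ) (l : Fin n → ℂ), (∀ i, IsAlgebraic ℚ (Complex.exp (l i))) → LinearIndependent ℚ l →
    ∃ w : Fin (n - C) → ℂ, (∀ i, w i ∈ IntermediateField.adjoin ℚ (range l)) ∧ AlgebraicIndependent ℚ w

/-- The elements of `F` in `LinForms`, as a space over the algebraic numbers. -/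
noncomputable def inter (F : IntermediateField ℚ ℂ) : Submodule (algebraicClosure ℚ ℂ) ℂ :=
  Submodule.span (algebraicClosure ℚ ℂ) {z | z ∈ F ∧ z ∈ LinForms}

/-! ### Preparations -/

noncomputable abbrev QB : IntermediateField ℚ ℂ := algebraicClosure ℚ ℂ

theorem hK (a : QB) : IsAlgebraic ℚ (algebraMap QB ℂ a) := mem_algebraicClosure_iff.mp a.2

theorem smul_eq (a : QB) (z : ℂ) : a • z = (a : ℂ) * z := rfl

theorem free_iff (F : IntermediateField ℚ ℂ) : FreeOver F ↔ Free LinForms F := Iff.rfl

theorem lin_iff (F : IntermediateField ℚ ℂ) : LinearLoci F ↔ LinLoc LinForms F := Iff.rfl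

/-- Finite dimensional spaces of linear forms in logarithms are contained in the span of `1` and of linearly independent
logarithms. -/
theorem exists_logs (V : Submodule QB ℂ) [FiniteDimensional QB V] (hV : V ≤ LinForms) :
    ∃ (n : ℕ) (l : Fin n → ℂ), (∀ i, IsAlgebraic ℚ (Complex.exp (l i))) ∧ LinearIndependent ℚ l ∧
      V ≤ Submodule.span QB ({1} ∪ range l) := by
  obtain ⟨t, ht⟩ : V.FG := Module.Finite.iff_fg.mp inferInstance
  have h1 : ∃ X : Set ℂ, X.Finite ∧ X ⊆ {z : ℂ | IsAlgebraic ℚ (Complex.exp z)} ∧
      (t : Set ℂ) ⊆ Submodule.span QB ({1} ∪ X) := by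
    have key : ∀ u : Finset ℂ, (u : Set ℂ) ⊆ LinForms → ∃ X : Set ℂ, X.Finite ∧
        X ⊆ {z : ℂ | IsAlgebraic ℚ (Complex.exp z)} ∧ (u : Set ℂ) ⊆ Submodule.span QB ({1} ∪ X) := by
      classical
      intro u
      induction u using Finset.induction_on with
      | empty => intro _; exact ⟨∅, finite_empty, empty_subset _, by simp⟩
      | insert z u _ ih =>
        intro hu
        rw [Finset.coe_insert] at hu
        obtain ⟨X, h1, h2, h3⟩ := ih ((subset_insert _ _).trans hu)
        have hz : z ∈ LinForms := hu (mem_insert _ _)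
        obtain ⟨Y, hY1, hY2⟩ := Submodule.mem_span_finite_of_mem_span hz
        refine ⟨X ∪ ((Y : Set ℂ) ∩ {z : ℂ | IsAlgebraic ℚ (Complex.exp z)}),
          h1.union (Y.finite_toSet.inter_of_left _), union_subset h2 inter_subset_right, ?_⟩
        rw [Finset.coe_insert]
        refine insert_subset ?_ (h3.trans (Submodule.span_mono
          (union_subset_union_right _ subset_union_left)))
        refine Submodule.span_mono ?_ hY2
        intro w hw
        rcases hY1 hw with h | h
        · exact Or.inl h
        · exact Or.inr (Or.inr ⟨hw, h⟩)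
    apply key
    intro z hz
    exact hV (by rw [← ht]; exact Submodule.subset_span hz)
  obtain ⟨X, hX1, hX2, hX3⟩ := h1
  obtain ⟨B, hB1, hB2, hB3⟩ := exists_linearIndependent ℚ X
  have hBf : B.Finite := hX1.subset hB1
  have : Fintype B := hBf.fintype
  let e : Fin (Fintype.card B) ≃ B := (Fintype.equivFin B).symm
  refine ⟨_, fun i => (e i : ℂ), fun i => hX2 (hB1 (e i).2), hB3.comp e e.injective, ?_⟩
  have hr : range (fun i => (e i : ℂ)) = B := by
    ext z
    constructor
    · rintro ⟨i, rfl⟩
      exact (e i).2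
    · intro hz
      exact ⟨e.symm ⟨z, hz⟩, by simp⟩
  rw [hr, ← ht, Submodule.span_le]
  refine hX3.trans (Submodule.span_le.mpr ?_)
  rintro z (hz | hz)
  · exact Submodule.subset_span (Or.inl hz)
  · have h2 : z ∈ Submodule.span ℚ B := by
      rw [hB2]
      exact Submodule.subset_span hz
    have h3 : Submodule.span ℚ B ≤ (Submodule.span QB ({1} ∪ B)).restrictScalars ℚ := by
      rw [Submodule.span_le]
      exact fun w hw => Submodule.subset_span (Or.inr hw)
    exact h3 h2

theorem span_le {n : ℕ} {l : Fin n → ℂ} (hl : ∀ i, IsAlgebraic ℚ (Complex.exp (l i))) :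
    Submodule.span QB ({1} ∪ range l) ≤ LinForms := by
  apply Submodule.span_mono
  apply union_subset_union_right
  rintro _ ⟨i, rfl⟩
  exact hl i

theorem fd {n : ℕ} (l : Fin n → ℂ) : FiniteDimensional QB (Submodule.span QB ({1} ∪ range l)) :=
  FiniteDimensional.span_of_finite QB ((finite_singleton _).union (finite_range l))

theorem cons_range {n : ℕ} (l : Fin n → ℂ) : ({1} ∪ range l : Set ℂ) = range (Fin.cons 1 l : Fin (n + 1) → ℂ) := by
  rw [Fin.range_cons]
  rfl

theorem finrank_le {n : ℕ} (l : Fin n → ℂ) : finrank QB (Submodule.span QB ({1} ∪ range l)) ≤ n + 1 := by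
  rw [cons_range]
  have := finrank_range_le_card (R := QB) (Fin.cons 1 l : Fin (n + 1) → ℂ)
  rw [Fintype.card_fin] at this
  exact this

theorem finrank_eq {n : ℕ} {l : Fin n → ℂ} (hl : ∀ i, IsAlgebraic ℚ (Complex.exp (l i)))
    (hli : LinearIndependent ℚ l) : finrank QB (Submodule.span QB ({1} ∪ range l)) = n + 1 := by
  rw [cons_range]
  have h1 : LinearIndependent QB (Fin.cons 1 l : Fin (n + 1) → ℂ) := by
    rw [Fintype.linearIndependent_iff]
    intro g hg
    rw [Fin.sum_univ_succ] at hg
    simp only [Fin.cons_zero, Fin.cons_succ, smul_eq, mul_one] at hg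
    obtain ⟨h2, h3⟩ := Pool.Agent.H297R2.baker_inhom l hl hli (g 0 : ℂ) (hK _)
      (fun i => (g i.succ : ℂ)) (fun i => hK _) hg
    intro i
    refine Fin.cases ?_ (fun j => ?_) i
    · exact Subtype.ext h2
    · exact Subtype.ext (h3 j)
  rw [finrank_span_eq_card h1, Fintype.card_fin]

theorem rk_span {n : ℕ} (l : Fin n → ℂ) :
    (Mt ℂ).eRk (Submodule.span QB ({1} ∪ range l) : Set ℂ) = (Mt ℂ).eRk (range l) := by
  apply le_antisymm
  · rw [← (Mt ℂ).eRk_closure_eq (range l)]
    refine (Mt ℂ).eRk_mono ((span_sub hK _).trans (cl_sub (union_subset ?_ (subset_cl _))))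
    rw [singleton_subset_iff]
    exact cl_alg isAlgebraic_one
  · exact (Mt ℂ).eRk_mono (subset_union_right.trans Submodule.subset_span)

/-- the defect of the span of `1` and of logarithms -/
theorem d_le_of {n : ℕ} {l : Fin n → ℂ} {m : ℕ} (h : (m : ℕ∞) ≤ (Mt ℂ).eRk (range l)) :
    d (Submodule.span QB ({1} ∪ range l)) ≤ n + 1 - m := by
  have := fd l
  rw [← rk_span, ← coe_r hK] at h
  have h1 : m ≤ r (Submodule.span QB ({1} ∪ range l)) := by exact_mod_cast h
  have h2 := finrank_le l
  unfold d
  omega

theorem le_rk_of {n : ℕ} {l : Fin n → ℂ} {m : ℕ} (w : Fin m → ℂ)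
    (hw : ∀ i, w i ∈ IntermediateField.adjoin ℚ (range l)) (hind : AlgebraicIndependent ℚ w) :
    (m : ℕ∞) ≤ (Mt ℂ).eRk (range l) := by
  rw [← rank_range_of_indep hind, ← (Mt ℂ).eRk_closure_eq (range l)]
  apply (Mt ℂ).eRk_mono
  rintro _ ⟨i, rfl⟩
  exact adjoin_sub _ (hw i)

theorem iff_Q {n : ℕ} (l : Fin n → ℂ) :
    AlgebraicIndependent (integralClosure ℚ ℂ) l ↔ AlgebraicIndependent ℚ l :=
  ⟨fun h => h.restrictScalars (FaithfulSMul.algebraMap_injective _ _), fun h => h.integralClosure⟩

theorem iff_QB {n : ℕ} (l : Fin n → ℂ) :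
    AlgebraicIndependent QB l ↔ AlgebraicIndependent ℚ l :=
  ⟨fun h => h.restrictScalars (FaithfulSMul.algebraMap_injective _ _), fun h => h.algebraicClosure⟩

theorem clos_QB : Clos QB := by
  intro z hz
  have := algebraicClosure.isAlgebraic ℚ ℂ
  rw [mem_algebraicClosure_iff]
  exact @IsAlgebraic.restrictScalars ℚ (algebraicClosure ℚ ℂ) ℂ _ _ _ _ _ _ _ _ this _ hz

theorem QB_le {F : IntermediateField ℚ ℂ} (hF : Clos F) : QB ≤ F := fun a ha => scalar_mem hK hF ⟨a, ha⟩

theorem free_QB (h : LogConjecture) : Free LinForms QB := by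
  intro n x hx hli
  rw [iff_QB]
  apply indep_of_rank
  have hV : FiniteDimensional QB (Submodule.span QB ({1} ∪ range x)) := fd x
  have hVE : Submodule.span QB ({1} ∪ range x) ≤ LinForms := by
    rw [Submodule.span_le]
    rintro z (hz | ⟨i, rfl⟩)
    · exact Submodule.subset_span (Or.inl hz)
    · exact hx i
  obtain ⟨m, l, h1, h2, h3⟩ := exists_logs _ hVE
  have h4 := (iff_Q l).mp (h m l h1 h2)
  have h5 : d (Submodule.span QB ({1} ∪ range l)) ≤ 1 := by
    have := d_le_of (rank_range_of_indep h4).ge
    omega
  have := fd l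
  have h6 := d_mono hK h3
  have h7 : finrank QB (Submodule.span QB ({1} ∪ range x)) = n + 1 := by
    rw [cons_range]
    have h8 : LinearIndependent QB (Fin.cons 1 x : Fin (n + 1) → ℂ) := by
      rw [Fintype.linearIndependent_iff]
      intro g hg
      rw [Fin.sum_univ_succ] at hg
      simp only [Fin.cons_zero, Fin.cons_succ, smul_eq, mul_one] at hg
      have h9 := hli (fun i => g i.succ) (by
        simp only [smul_eq]
        have : ∑ i : Fin n, (g i.succ : ℂ) * x i = -(g 0 : ℂ) := by linear_combination hg
        rw [this]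
        exact neg_mem (g 0).2)
      have h10 : ∀ i : Fin n, g i.succ = 0 := fun i => congrFun h9 i
      simp only [h10, ZeroMemClass.coe_zero, zero_mul, Finset.sum_const_zero, add_zero] at hg
      intro i
      refine Fin.cases ?_ (fun j => ?_) i
      · exact Subtype.ext hg
      · exact h10 j
    rw [finrank_span_eq_card h8, Fintype.card_fin]
  have h8 : n ≤ r (Submodule.span QB ({1} ∪ range x)) := by
    unfold d at h5 h6
    omega
  rw [← rk_span, ← coe_r hK]
  exact_mod_cast h8

theorem logConj_iff : LogConjecture ↔ FF hK LinForms = QB := by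
  constructor
  · intro h
    exact le_antisymm (FF_le hK clos_QB (free_QB h)) (QB_le (clos_FF hK))
  · intro h n l h1 h2
    rw [iff_Q, ← iff_QB]
    have h3 := free_FF (E := LinForms) hK
    rw [h] at h3
    refine h3 n l (fun i => Submodule.subset_span (Or.inr (h1 i))) fun c hc => ?_
    have h4 : IsAlgebraic ℚ (-(∑ i, c i • l i)) := (mem_algebraicClosure_iff.mp hc).neg
    have h5 := Pool.Agent.H297R2.baker_inhom l h1 h2 _ h4 (fun i => (c i : ℂ)) (fun i => hK _)
      (neg_add_cancel _)
    funext i
    exact Subtype.ext (h5.2 i)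

theorem bounded_iff : LogConjectureBounded ↔ FiniteDimensional QB (core hK LinForms) := by
  rw [core_finite_iff]
  constructor
  · rintro ⟨C, hC⟩
    refine ⟨C + 1, fun V hV hVE => ?_⟩
    obtain ⟨n, l, h1, h2, h3⟩ := exists_logs V hVE
    obtain ⟨w, h4, h5⟩ := hC n l h1 h2
    have := fd l
    have h6 := d_mono hK h3
    have h7 := d_le_of (le_rk_of w h4 h5)
    omega
  · rintro ⟨C, hC⟩
    refine ⟨C.toNat, fun n l h1 h2 => ?_⟩
    have := fd l
    have h3 := hC _ (fd l) (span_le h1)
    have h4 := finrank_eq h1 h2
    have h5 : n - C.toNat ≤ r (Submodule.span QB ({1} ∪ range l)) := by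
      unfold d at h3
      omega
    have h6 : ((n - C.toNat : ℕ) : ℕ∞) ≤ (Mt ℂ).eRk (range l) := by
      rw [← rk_span, ← coe_r hK]
      exact_mod_cast h5
    obtain ⟨w, h7, h8⟩ := exists_of_le_eRk h6
    exact ⟨w, fun i => IntermediateField.subset_adjoin _ _ (h7 i), h8⟩

theorem inter_eq : inter (FF hK LinForms) = core hK LinForms := by
  apply le_antisymm
  · rw [inter, Submodule.span_le]
    rintro z ⟨h1, h2⟩
    exact (mem_core_iff hK).mpr ⟨h1, h2⟩
  · intro z hz
    exact Submodule.subset_span ((mem_core_iff hK).mp hz)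

noncomputable def cj : ℂ ≃ₐ[ℚ] ℂ := Complex.conjAe.restrictScalars ℚ

theorem cj_symm (z : ℂ) : cj.symm z = (starRingEnd ℂ) z := rfl

theorem cj_apply (z : ℂ) : cj z = (starRingEnd ℂ) z := rfl

theorem alg_conj {z : ℂ} (h : IsAlgebraic ℚ z) : IsAlgebraic ℚ ((starRingEnd ℂ) z) := by
  rw [← cj_apply]
  exact h.algHom (cj : ℂ →ₐ[ℚ] ℂ)

theorem conj_mem {x : ℂ} (hx : x ∈ LinForms) : (starRingEnd ℂ) x ∈ LinForms := by
  unfold LinForms at hx
  induction hx using Submodule.span_induction with
  | mem y hy =>
    rcases hy with hy | hy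
    · rw [mem_singleton_iff] at hy
      rw [hy, map_one]
      exact Submodule.subset_span (Or.inl rfl)
    · refine Submodule.subset_span (Or.inr ?_)
      show IsAlgebraic ℚ _
      rw [Complex.exp_conj]
      exact alg_conj hy
  | zero => rw [map_zero]; exact zero_mem _
  | add y z _ _ h1 h2 => rw [map_add]; exact add_mem h1 h2
  | smul a y _ h1 =>
    have h2 : (starRingEnd ℂ) (a • y) =
        (⟨(starRingEnd ℂ) (a : ℂ), mem_algebraicClosure_iff.mpr (alg_conj (hK a))⟩ : QB) • (starRingEnd ℂ) y := by
      rw [smul_eq, smul_eq, map_mul]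
    rw [h2]
    exact LinForms.smul_mem _ h1

/-! ### The result -/

theorem result : ∃ F : IntermediateField ℚ ℂ,
    -- the smallest algebraically closed field over which the linear forms in logarithms are free
    (Closed F ∧ FreeOver F ∧ ∀ F', Closed F' → FreeOver F' → F ≤ F') ∧
    -- the smallest algebraically closed field over which all loci are linear
    (LinearLoci F ∧ ∀ F', Closed F' → LinearLoci F' → F ≤ F') ∧
    -- it is trivial if and only if the conjecture holds
    (LogConjecture ↔ F = algebraicClosure ℚ ℂ) ∧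
    -- it is generated by linear forms in logarithms
    (∀ z ∈ F, IsAlgebraic (IntermediateField.adjoin ℚ {x | x ∈ F ∧ x ∈ LinForms}) z) ∧
    -- it is stable under complex conjugation
    (∀ z ∈ F, (starRingEnd ℂ) z ∈ F) ∧
    -- the description by hyperplanes
    (∀ x ∈ LinForms, x ∈ F ↔ ∀ H ≤ LinForms, x ∉ H →
      H ⊔ Submodule.span (algebraicClosure ℚ ℂ) {x} = LinForms →
        IsAlgebraic (IntermediateField.adjoin ℚ (H : Set ℂ)) x) ∧
    -- it contains all counterexamples to the strong four exponentials conjecture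
    (∀ x y : Fin 2 → ℂ, LinearIndependent (algebraicClosure ℚ ℂ) x → LinearIndependent (algebraicClosure ℚ ℂ) y →
      (∀ i j, x i * y j ∈ LinForms) → ∀ i j, x i * y j ∈ F) ∧
    -- the conjecture with a bounded error
    (LogConjectureBounded ↔ Module.Finite (algebraicClosure ℚ ℂ) (inter F)) := by
  have hcl : ∀ (X : Set ℂ) {z : ℂ}, z ∈ (Mt ℂ).closure X ↔ IsAlgebraic (IntermediateField.adjoin ℚ X) z := by
    intro X z
    constructor
    · intro h
      exact isAlgebraic_of_cl (cl_mono (IntermediateField.subset_adjoin _ _) h)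
    · intro h
      exact cl_sub (fun w hw => adjoin_sub _ hw) (cl_of_isAlgebraic h)
  refine ⟨FF hK LinForms, ⟨clos_FF hK, free_FF hK, fun F' h1 h2 => FF_le hK h1 h2⟩,
    ⟨linLoc_of_free hK (clos_FF hK) (free_FF hK), fun F' h1 h2 => FF_le hK h1 (free_of_linLoc hK h1 h2)⟩,
    logConj_iff, ?_, ?_, ?_, ?_, ?_⟩
  · intro z hz
    rw [← hcl]
    refine cl_mono ?_ hz
    intro x hx
    exact (mem_core_iff hK).mp hx
  · intro z hz
    have := FF_map hK cj (fun x hx => by rw [cj_symm]; exact conj_mem hx)
      (fun a => ⟨⟨_, mem_algebraicClosure_iff.mpr (alg_conj (hK a))⟩, rfl⟩) hz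
    rwa [cj_symm] at this
  · intro x hx
    rw [mem_FF_iff hK hx]
    constructor
    · intro h H h1 h2 h3
      rw [← hcl]
      exact h H h1 h2 h3
    · intro h H h1 h2 h3
      rw [hcl]
      exact h H h1 h2 h3
  · intro x y hx hy hxy
    exact four (linLoc_of_free hK (clos_FF hK) (free_FF hK)) hx hy hxy
  · rw [inter_eq]
    exact bounded_iff

end Pool.Agent.Results.MP_60829e_nt.SmallestFreeField
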